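import Mathlib

set_option autoImplicit false

namespace Pool.Agent.H.MP_b97972_al

open Matrix

section det
variable {S : Type} [CommRing S]

lemma det_sym {m : Type} [Fintype m] [DecidableEq m] (U V : Matrix m m S) :
    (fromBlocks U V V U).det = (U + V).det * (U - V).det := by
  have h : fromBlocks (1 : Matrix m m S) 0 (-1) 1 * fromBlocks U V V U * fromBlocks 1 0 1 1
      = fromBlocks (U + V) V 0 (U - V) := by
    simp only [fromBlocks_multiply]
    congr 1 <;> simp [sub_eq_neg_add]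
  have := congrArg det h
  rw [det_mul, det_mul, det_fromBlocks_zero₁₂, det_fromBlocks_zero₁₂, det_fromBlocks_zero₂₁] at this
  simpa using this

lemma det_comm [IsDomain S] {m : Type} [Fintype m] [DecidableEq m] (A B C D : Matrix m m S)
    (h : C * D = D * C) (hD : D.det ≠ 0) :
    (fromBlocks A B C D).det = (A * D - B * C).det := by
  have h1 : fromBlocks A B C D * fromBlocks D 0 (-C) 1 = fromBlocks (A * D - B * C) B 0 D := by
    simp only [fromBlocks_multiply]
    congr 1 <;> simp [sub_eq_add_neg, h]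
  have := congrArg det h1
  rw [det_mul, det_fromBlocks_zero₁₂, det_fromBlocks_zero₂₁] at this
  simp only [det_one, mul_one] at this
  exact mul_right_cancel₀ hD this

lemma det4 (M : Matrix (Fin 4) (Fin 4) S) : M.det =
    M 0 0 * (M 1 1 * (M 2 2 * M 3 3 - M 2 3 * M 3 2) - M 1 2 * (M 2 1 * M 3 3 - M 2 3 * M 3 1)
        + M 1 3 * (M 2 1 * M 3 2 - M 2 2 * M 3 1))
    - M 0 1 * (M 1 0 * (M 2 2 * M 3 3 - M 2 3 * M 3 2) - M 1 2 * (M 2 0 * M 3 3 - M 2 3 * M 3 0)
        + M 1 3 * (M 2 0 * M 3 2 - M 2 2 * M 3 0))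
    + M 0 2 * (M 1 0 * (M 2 1 * M 3 3 - M 2 3 * M 3 1) - M 1 1 * (M 2 0 * M 3 3 - M 2 3 * M 3 0)
        + M 1 3 * (M 2 0 * M 3 1 - M 2 1 * M 3 0))
    - M 0 3 * (M 1 0 * (M 2 1 * M 3 2 - M 2 2 * M 3 1) - M 1 1 * (M 2 0 * M 3 2 - M 2 2 * M 3 0)
        + M 1 2 * (M 2 0 * M 3 1 - M 2 1 * M 3 0)) := by
  simp [Matrix.det_succ_row_zero, Fin.sum_univ_succ, Fin.succAbove]
  ring

/-- Klein four-group matrix. -/
def K (a b c d : S) : Matrix (Fin 4) (Fin 4) S := !![a, b, c, d; b, a, d, c; c, d, a, b; d, c, b, a]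

lemma detK (a b c d : S) : (K a b c d).det
    = (a + b + c + d) * (a - b + c - d) * (a + b - c - d) * (a - b - c + d) := by
  rw [det4]; simp [K]; ring

lemma K_mul (a b c d e f g h : S) : K a b c d * K e f g h
    = K (a*e+b*f+c*g+d*h) (a*f+b*e+c*h+d*g) (a*g+b*h+c*e+d*f) (a*h+b*g+c*f+d*e) := by
  ext i j
  fin_cases i <;> fin_cases j <;> simp [K, Matrix.mul_apply, Fin.sum_univ_four] <;> ring

lemma K_sub (a b c d e f g h : S) : K a b c d - K e f g h = K (a-e) (b-f) (c-g) (d-h) := by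
  ext i j
  fin_cases i <;> fin_cases j <;> simp [K]

lemma K_add (a b c d e f g h : S) : K a b c d + K e f g h = K (a+e) (b+f) (c+g) (d+h) := by
  ext i j
  fin_cases i <;> fin_cases j <;> simp [K]

lemma detKK (a b c d e f g h : S) :
    (fromBlocks (K a b c d) (K e f g h) (K e f g h) (K a b c d)).det =
    (a + b + c + d + e + f + g + h) * (a - b + c - d + e - f + g - h)
    * (a + b - c - d + e + f - g - h) * (a - b - c + d + e - f - g + h)
    * ((a + b + c + d - e - f - g - h) * (a - b + c - d - e + f - g + h)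
    * (a + b - c - d - e - f + g + h) * (a - b - c + d - e + f + g - h)) := by
  rw [det_sym, K_add, K_sub, detK, detK]
  congr 1 <;> (congr 1; congr 1; congr 1) <;> ring

def mA (a b c d : S) : Matrix (Fin 4) (Fin 4) S :=
  !![a, -b, -c, -d; b, a, -d, c; c, d, a, -b; d, -c, b, a]
def mB (e f g h : S) : Matrix (Fin 4) (Fin 4) S :=
  !![-e, -f, -g, h; f, -e, -h, -g; -g, -h, e, -f; h, -g, f, e]
def mC (e f g h : S) : Matrix (Fin 4) (Fin 4) S :=
  !![e, -f, g, -h; f, e, h, g; -g, -h, e, f; h, -g, -f, e]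
def mD (a b c d : S) : Matrix (Fin 4) (Fin 4) S :=
  !![a, b, c, d; -b, a, d, -c; -c, -d, a, b; -d, c, -b, a]

lemma detD (a b c d : S) : (mD a b c d).det = (a^2 + b^2 + c^2 + d^2)^2 := by
  rw [det4]; simp [mD]; ring

lemma CD (a b c d e f g h : S) : mC e f g h * mD a b c d = mD a b c d * mC e f g h := by
  ext i j
  fin_cases i <;> fin_cases j <;> simp [mC, mD, Matrix.mul_apply, Fin.sum_univ_four] <;> ring

/-- `t - W` for the traceless symmetric `W = mB * mC`. -/
def mW (t u v w : S) : Matrix (Fin 4) (Fin 4) S :=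
  !![t + u, 0, w, -v; 0, t + u, v, w; w, v, t - u, 0; -v, w, 0, t - u]

lemma detW (t u v w : S) : (mW t u v w).det = (t^2 - (u^2 + v^2 + w^2))^2 := by
  rw [det4]; simp [mW]; ring

lemma ADBC (a b c d e f g h : S) : mA a b c d * mD a b c d - mB e f g h * mC e f g h
    = mW (a^2 + b^2 + c^2 + d^2) (e^2 + f^2 - g^2 - h^2) (2 * (e*h - f*g)) (2 * (e*g + f*h)) := by
  ext i j
  fin_cases i <;> fin_cases j <;>
    simp [mA, mB, mC, mD, mW, Matrix.mul_apply, Fin.sum_univ_four] <;> ring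

lemma detM [IsDomain S] (a b c d e f g h : S) (hN : a^2 + b^2 + c^2 + d^2 ≠ 0) :
    (fromBlocks (mA a b c d) (mB e f g h) (mC e f g h) (mD a b c d)).det
    = (a^2 + b^2 + c^2 + d^2 + (e^2 + f^2 + g^2 + h^2))^2
      * (a^2 + b^2 + c^2 + d^2 - (e^2 + f^2 + g^2 + h^2))^2 := by
  rw [det_comm _ _ _ _ (CD ..) (by rw [detD]; exact pow_ne_zero _ hN), ADBC, detW]
  ring

end det

abbrev J := Fin 4 ⊕ Fin 4
abbrev I := J ⊕ J

def T0 : J → J → Fin 16
  | .inl r, .inl c => !![0, 9, 10, 11; 1, 0, 11, 2; 2, 3, 0, 9; 3, 10, 1, 0] r c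
  | .inl r, .inr c => !![12, 13, 14, 7; 5, 12, 15, 14; 14, 15, 4, 13; 7, 14, 5, 4] r c
  | .inr r, .inl c => !![4, 13, 6, 15; 5, 4, 7, 6; 14, 15, 4, 5; 7, 14, 13, 4] r c
  | .inr r, .inr c => !![0, 1, 2, 3; 9, 0, 3, 10; 10, 11, 0, 1; 11, 2, 9, 0] r c

def T1 : J → J → Fin 16
  | .inl r, .inl c => !![8, 1, 2, 3; 9, 8, 3, 10; 10, 11, 8, 1; 11, 2, 9, 8] r c
  | .inl r, .inr c => !![4, 5, 6, 15; 13, 4, 7, 6; 6, 7, 12, 5; 15, 6, 13, 12] r c
  | .inr r, .inl c => !![12, 5, 14, 7; 13, 12, 15, 14; 6, 7, 12, 13; 15, 6, 5, 12] r c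
  | .inr r, .inr c => !![8, 9, 10, 11; 1, 8, 11, 2; 2, 3, 8, 9; 3, 10, 1, 8] r c

def T : I → I → Fin 16
  | .inl r, .inl c => T0 r c
  | .inl r, .inr c => T1 r c
  | .inr r, .inl c => T1 r c
  | .inr r, .inr c => T0 r c

lemma T_row : ∀ i, Function.Bijective (T i) := by decide +kernel
lemma T_col : ∀ j, Function.Bijective (fun i => T i j) := by decide +kernel

section big
variable {S : Type} [CommRing S]

lemma sumUV (x : Fin 16 → S) :
    (Matrix.of fun i j => x (T0 i j)) + (Matrix.of fun i j => x (T1 i j))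
    = fromBlocks (K (x 0 + x 8) (x 1 + x 9) (x 2 + x 10) (x 3 + x 11))
        (K (x 4 + x 12) (x 5 + x 13) (x 6 + x 14) (x 7 + x 15))
        (K (x 4 + x 12) (x 5 + x 13) (x 6 + x 14) (x 7 + x 15))
        (K (x 0 + x 8) (x 1 + x 9) (x 2 + x 10) (x 3 + x 11)) := by
  ext i j
  rcases i with i | i <;> rcases j with j | j <;> fin_cases i <;> fin_cases j <;>
    simp [T0, T1, K, add_comm]

lemma subUV (x : Fin 16 → S) :
    (Matrix.of fun i j => x (T0 i j)) - (Matrix.of fun i j => x (T1 i j))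
    = fromBlocks (mA (x 0 - x 8) (x 1 - x 9) (x 2 - x 10) (x 3 - x 11))
        (mB (x 4 - x 12) (x 5 - x 13) (x 6 - x 14) (x 7 - x 15))
        (mC (x 4 - x 12) (x 5 - x 13) (x 6 - x 14) (x 7 - x 15))
        (mD (x 0 - x 8) (x 1 - x 9) (x 2 - x 10) (x 3 - x 11)) := by
  ext i j
  rcases i with i | i <;> rcases j with j | j <;> fin_cases i <;> fin_cases j <;>
    simp [T0, T1, mA, mB, mC, mD]

lemma detT (x : Fin 16 → S) : (Matrix.of fun i j => x (T i j)).det
    = ((Matrix.of fun i j => x (T0 i j)) + (Matrix.of fun i j => x (T1 i j))).det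
      * ((Matrix.of fun i j => x (T0 i j)) - (Matrix.of fun i j => x (T1 i j))).det := by
  rw [← det_sym]
  congr 1
  ext i j
  rcases i with i | i <;> rcases j with j | j <;> rfl

end big

lemma not_group {G : Type} [Group G] (a b : I → G) (e : G ≃ Fin 16)
    (h : ∀ i j, T i j = e (a i * b j)) : False := by
  have k : ∀ i j i' j', T i j = T i' j' → a i * b j = a i' * b j' := fun i j i' j' hh =>
    e.injective (by rw [← h, ← h, hh])
  have h1 := k (.inl (.inl 0)) (.inl (.inl 0)) (.inl (.inr 1)) (.inl (.inr 1)) (by decide)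
  have h2 := k (.inl (.inl 0)) (.inl (.inl 2)) (.inl (.inr 1)) (.inl (.inr 3)) (by decide)
  have h3 := k (.inl (.inl 1)) (.inl (.inl 0)) (.inl (.inr 0)) (.inl (.inr 1)) (by decide)
  have h4 : a (.inl (.inl 1)) * b (.inl (.inl 2)) = a (.inl (.inr 0)) * b (.inl (.inr 3)) := by
    have : a (.inl (.inl 1)) * b (.inl (.inl 2)) = (a (.inl (.inl 1)) * b (.inl (.inl 0)))
        * (a (.inl (.inl 0)) * b (.inl (.inl 0)))⁻¹ * (a (.inl (.inl 0)) * b (.inl (.inl 2))) := by
      group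
    rw [this, h1, h2, h3]
    group
  have h5 : T (.inl (.inl 1)) (.inl (.inl 2)) = T (.inl (.inr 0)) (.inl (.inr 3)) := by
    rw [h, h, h4]
  revert h5
  decide

end Pool.Agent.H.MP_b97972_al
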