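import Pool.Agent.H.MP_b97972_al.A

set_option autoImplicit false

namespace Pool.Agent.H.MP_b97972_al

open MvPolynomial

abbrev R := MvPolynomial (Fin 16) ℂ

lemma aff (f : R) (hf : f.totalDegree ≤ 1) (u v : Fin 16 → ℂ) :
    eval (u + v) f + eval 0 f = eval u f + eval v f := by
  have key : ∀ d ∈ f.support, eval (u + v) (monomial d (coeff d f)) + eval 0 (monomial d (coeff d f))
      = eval u (monomial d (coeff d f)) + eval v (monomial d (coeff d f)) := by
    intro d hd
    have h1 : d.degree ≤ 1 := le_trans (le_totalDegree hd) hf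
    rcases Nat.le_one_iff_eq_zero_or_eq_one.1 h1 with h | h
    · have : d = 0 := (Finsupp.degree_eq_zero_iff d).1 h
      subst this
      simp
    · have hm : d ∈ Set.range (fun i : Fin 16 => Finsupp.single i 1) := by
        rw [Finsupp.range_single_one]; exact h
      obtain ⟨i, rfl⟩ := hm
      simp [eval_monomial, mul_add, constantCoeff_monomial]
  conv_lhs => rw [f.as_sum]
  conv_rhs => rw [f.as_sum]
  simp only [map_sum, ← Finset.sum_add_distrib]
  exact Finset.sum_congr rfl key

lemma unit_of_deg (f : R) (h0 : f ≠ 0) (h : f.totalDegree = 0) : IsUnit f := by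
  have hC := totalDegree_eq_zero_iff_eq_C.1 h
  rw [hC] at h0 ⊢
  exact (IsUnit.mk0 _ (fun hh => h0 (by rw [hh, C_0]))).map C

def pt (t s r : ℂ) : Fin 16 → ℂ := ![t, s, r, 0, 0, 0, 0, 0, 0, 0, 0, 0, 0, 0, 0, 0]

lemma pt_add (t s r t' s' r' : ℂ) : pt t s r + pt t' s' r' = pt (t + t') (s + s') (r + r') := by
  ext i; fin_cases i <;> simp [pt]

lemma pt_zero : pt 0 0 0 = 0 := by
  ext i; fin_cases i <;> simp [pt]

lemma aff3 (f : R) (hf : f.totalDegree ≤ 1) : ∃ a b c d : ℂ, eval (pt 0 0 0) f = a ∧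
    eval (pt 1 0 0) f = a + b ∧ eval (pt (-1) 0 0) f = a - b ∧
    eval (pt 0 1 0) f = a + c ∧ eval (pt 0 (-1) 0) f = a - c ∧
    eval (pt 0 0 1) f = a + d ∧ eval (pt 0 0 (-1)) f = a - d ∧
    eval (pt 1 1 0) f = a + b + c ∧ eval (pt 1 0 1) f = a + b + d ∧
    eval (pt 0 1 1) f = a + c + d := by
  have h := fun t s r t' s' r' => aff f hf (pt t s r) (pt t' s' r')
  simp only [pt_add, ← pt_zero] at h
  refine ⟨eval (pt 0 0 0) f, eval (pt 1 0 0) f - eval (pt 0 0 0) f,
    eval (pt 0 1 0) f - eval (pt 0 0 0) f, eval (pt 0 0 1) f - eval (pt 0 0 0) f,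
    rfl, by ring, ?_, by ring, ?_, by ring, ?_, ?_, ?_, ?_⟩
  · have := h 1 0 0 (-1) 0 0
    norm_num at this
    linear_combination -this
  · have := h 0 1 0 0 (-1) 0
    norm_num at this
    linear_combination -this
  · have := h 0 0 1 0 0 (-1)
    norm_num at this
    linear_combination -this
  · have := h 1 0 0 0 1 0
    norm_num at this
    linear_combination this
  · have := h 1 0 0 0 0 1
    norm_num at this
    linear_combination this
  · have := h 0 1 0 0 0 1
    norm_num at this
    linear_combination this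

lemma irr2 (Q : R) (hd : Q.totalDegree = 2)
    (hQ : ∀ t s r, eval (pt t s r) Q = t^2 + s^2 + r^2) : Irreducible Q where
  not_isUnit H := by
    simp [(MvPolynomial.isUnit_iff_totalDegree_of_isReduced.mp H).2] at hd
  isUnit_or_isUnit f g hfg := by
    have hf0 : f ≠ 0 := by rintro rfl; simp [hfg] at hd
    have hg0 : g ≠ 0 := by rintro rfl; simp [hfg] at hd
    have hs : f.totalDegree + g.totalDegree = 2 := by
      rw [← totalDegree_mul_of_isDomain hf0 hg0, ← hfg, hd]
    by_cases h1 : f.totalDegree = 0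
    · exact Or.inl (unit_of_deg f hf0 h1)
    by_cases h2 : g.totalDegree = 0
    · exact Or.inr (unit_of_deg g hg0 h2)
    exfalso
    obtain ⟨a, b, c, d, e0, e1, e2, e3, e4, e5, e6, e7, e8, e9⟩ := aff3 f (by omega)
    obtain ⟨a', b', c', d', f0, f1, f2, f3, f4, f5, f6, f7, f8, f9⟩ := aff3 g (by omega)
    simp only [hfg, map_mul] at hQ
    have q0 := hQ 0 0 0
    have q1 := hQ 1 0 0
    have q2 := hQ (-1) 0 0
    have q3 := hQ 0 1 0
    have q4 := hQ 0 (-1) 0
    have q5 := hQ 0 0 1
    have q6 := hQ 0 0 (-1)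
    have q7 := hQ 1 1 0
    have q8 := hQ 1 0 1
    have q9 := hQ 0 1 1
    rw [e0, f0] at q0
    rw [e1, f1] at q1
    rw [e2, f2] at q2
    rw [e3, f3] at q3
    rw [e4, f4] at q4
    rw [e5, f5] at q5
    rw [e6, f6] at q6
    rw [e7, f7] at q7
    rw [e8, f8] at q8
    rw [e9, f9] at q9
    have b1 : b * b' = 1 := by linear_combination (q1 + q2) / 2 - q0
    have c1 : c * c' = 1 := by linear_combination (q3 + q4) / 2 - q0
    have d1 : d * d' = 1 := by linear_combination (q5 + q6) / 2 - q0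
    have bc : b * c' + c * b' = 0 := by linear_combination q7 - q1 - q3 + q0
    have bd : b * d' + d * b' = 0 := by linear_combination q8 - q1 - q5 + q0
    have cd : c * d' + d * c' = 0 := by linear_combination q9 - q3 - q5 + q0
    have s1 : b^2 + c^2 = 0 := by linear_combination b * c * bc - b^2 * c1 - c^2 * b1
    have s2 : b^2 + d^2 = 0 := by linear_combination b * d * bd - b^2 * d1 - d^2 * b1
    have s3 : c^2 + d^2 = 0 := by linear_combination c * d * cd - c^2 * d1 - d^2 * c1
    have s4 : b^2 = 0 := by linear_combination (s1 + s2 - s3) / 2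
    have s5 : b = 0 := pow_eq_zero_iff (two_ne_zero) |>.1 s4
    rw [s5] at b1
    simp at b1

lemma assoc_ev (f g : R) (h : Associated f g) : ∃ r : ℂ, ∀ v, eval v g = eval v f * r := by
  obtain ⟨u, hu⟩ := h
  obtain ⟨r, -, hr⟩ := isUnit_iff_eq_C_of_isReduced.1 u.isUnit
  exact ⟨r, fun v => by rw [← hu, hr, map_mul, eval_C]⟩

def sg : Bool → ℂ
  | true => 1
  | false => -1

/-- sign table of the eight characters -/
def ch (k : Fin 8) (j : Fin 16) : Bool := (k.val &&& (j.val % 8)) ∈ [0, 3, 5, 6]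

noncomputable def lin (k : Fin 8) : R := ∑ j, C (sg (ch k j)) * X j

noncomputable def N1 : R := (X 0 - X 8)^2 + (X 1 - X 9)^2 + (X 2 - X 10)^2 + (X 3 - X 11)^2
noncomputable def N2 : R := (X 4 - X 12)^2 + (X 5 - X 13)^2 + (X 6 - X 14)^2 + (X 7 - X 15)^2

lemma ev_lin (k : Fin 8) (j : Fin 16) (t : ℂ) : eval (Pi.single j t) (lin k) = sg (ch k j) * t := by
  simp only [lin, map_sum, map_mul, eval_C, eval_X]
  rw [Finset.sum_eq_single j]
  · simp
  · intro b _ hb
    simp [hb]
  · simp

lemma ch0 : ∀ k, ch k 0 = true := by decide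

lemma hom_lin (k : Fin 8) : (lin k).IsHomogeneous 1 :=
  IsHomogeneous.sum _ _ _ fun j _ => (isHomogeneous_X ℂ j).C_mul _

lemma deg_lin (k : Fin 8) : (lin k).totalDegree = 1 := by
  refine (hom_lin k).totalDegree fun h => ?_
  have := ev_lin k 0 1
  rw [h, ch0] at this
  simp [sg] at this

lemma irr_lin (k : Fin 8) : Irreducible (lin k) := by
  refine irreducible_of_totalDegree_eq_one (deg_lin k) fun x hx => ?_
  by_contra hu
  have hx0 : x = 0 := by simpa using hu
  have : lin k = 0 := by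
    ext d
    simpa [hx0] using hx d
  have h1 := deg_lin k
  rw [this] at h1
  simp at h1

lemma hom_sq (i j : Fin 16) : ((X i - X j : R)^2).IsHomogeneous 2 :=
  ((isHomogeneous_X ℂ i).sub (isHomogeneous_X ℂ j)).pow 2

lemma hom_N1 : N1.IsHomogeneous 2 :=
  (((hom_sq _ _).add (hom_sq _ _)).add (hom_sq _ _)).add (hom_sq _ _)

lemma hom_N2 : N2.IsHomogeneous 2 :=
  (((hom_sq _ _).add (hom_sq _ _)).add (hom_sq _ _)).add (hom_sq _ _)

lemma ev_N1 (t s r : ℂ) : eval (pt t s r) N1 = t^2 + s^2 + r^2 := by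
  simp [N1, pt]

lemma ev_N2 (t s r : ℂ) : eval (pt t s r) N2 = 0 := by
  simp [N2, pt]

lemma N1_ne : N1 ≠ 0 := fun h => by
  have := ev_N1 1 0 0
  rw [h] at this
  simp at this

lemma deg_add : (N1 + N2).totalDegree = 2 := by
  refine (hom_N1.add hom_N2).totalDegree fun h => ?_
  have := congrArg (eval (pt 1 0 0)) h
  simp [ev_N1, ev_N2] at this

lemma deg_sub : (N1 - N2).totalDegree = 2 := by
  refine (hom_N1.sub hom_N2).totalDegree fun h => ?_
  have := congrArg (eval (pt 1 0 0)) h
  simp [ev_N1, ev_N2] at this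

lemma irr_add : Irreducible (N1 + N2) := irr2 _ deg_add fun t s r => by simp [ev_N1, ev_N2]

lemma irr_sub : Irreducible (N1 - N2) := irr2 _ deg_sub fun t s r => by simp [ev_N1, ev_N2]

lemma ch_inj : ∀ k l : Fin 8, k ≠ l → ∃ j, ch k j ≠ ch l j := by decide

lemma na_lin (k l : Fin 8) (h : k ≠ l) : ¬ Associated (lin k) (lin l) := fun ha => by
  obtain ⟨r, hr⟩ := assoc_ev _ _ ha
  obtain ⟨j, hj⟩ := ch_inj k l h
  have h0 := hr (Pi.single 0 1)
  have h1 := hr (Pi.single j 1)
  rw [ev_lin, ev_lin, ch0, ch0] at h0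
  rw [ev_lin, ev_lin] at h1
  have hr1 : r = 1 := by simpa [sg] using h0.symm
  rw [hr1] at h1
  revert hj h1
  cases ch k j <;> cases ch l j <;> norm_num [sg]

lemma na_deg (f g : R) (hf : f.totalDegree = 1) (hg : g.totalDegree = 2) : ¬ Associated f g :=
  fun ha => by
    have hf0 : f ≠ 0 := by rintro rfl; simp at hf
    have := totalDegree_le_of_dvd_of_isDomain ha.symm.dvd hf0
    omega

lemma na_q : ¬ Associated (N1 + N2) (N1 - N2) := fun ha => by
  obtain ⟨r, hr⟩ := assoc_ev _ _ ha
  have h0 := hr (pt 1 0 0)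
  have h1 := hr (Pi.single 4 1)
  simp [ev_N1, ev_N2] at h0
  simp [N1, N2, ← h0] at h1
  norm_num at h1

noncomputable def PP : Fin 8 ⊕ Bool → R
  | .inl k => lin k
  | .inr true => N1 + N2
  | .inr false => N1 - N2

lemma PP_irr : ∀ j, Irreducible (PP j)
  | .inl k => irr_lin k
  | .inr true => irr_add
  | .inr false => irr_sub

lemma PP_na : ∀ i j, i ≠ j → ¬ Associated (PP i) (PP j)
  | .inl k, .inl l, h => na_lin k l (fun e => h (by rw [e]))
  | .inl k, .inr true, _ => na_deg _ _ (deg_lin k) deg_add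
  | .inl k, .inr false, _ => na_deg _ _ (deg_lin k) deg_sub
  | .inr true, .inl k, _ => fun a => na_deg _ _ (deg_lin k) deg_add a.symm
  | .inr false, .inl k, _ => fun a => na_deg _ _ (deg_lin k) deg_sub a.symm
  | .inr true, .inr true, h => absurd rfl h
  | .inr false, .inr false, h => absurd rfl h
  | .inr true, .inr false, _ => na_q
  | .inr false, .inr true, _ => fun a => na_q a.symm

lemma lin_eq (k : Fin 8) : lin k = C (sg (ch k 0)) * (X 0 + X 8) + C (sg (ch k 1)) * (X 1 + X 9)
    + C (sg (ch k 2)) * (X 2 + X 10) + C (sg (ch k 3)) * (X 3 + X 11)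
    + C (sg (ch k 4)) * (X 4 + X 12) + C (sg (ch k 5)) * (X 5 + X 13)
    + C (sg (ch k 6)) * (X 6 + X 14) + C (sg (ch k 7)) * (X 7 + X 15) := by
  have h8 : ch k 8 = ch k 0 := rfl
  have h9 : ch k 9 = ch k 1 := rfl
  have h10 : ch k 10 = ch k 2 := rfl
  have h11 : ch k 11 = ch k 3 := rfl
  have h12 : ch k 12 = ch k 4 := rfl
  have h13 : ch k 13 = ch k 5 := rfl
  have h14 : ch k 14 = ch k 6 := rfl
  have h15 : ch k 15 = ch k 7 := rfl
  simp only [lin, Fin.sum_univ_succ, Fin.sum_univ_zero]
  simp only [Fin.succ_zero_eq_one, Fin.reduceSucc, h8, h9, h10, h11, h12, h13, h14, h15]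
  ring

lemma det_main : (Matrix.of fun i j => (X (T i j) : R)).det
    = ∏ j, PP j ^ (PP j).totalDegree := by
  rw [detT (fun k => (X k : R)), sumUV (fun k => (X k : R)), subUV (fun k => (X k : R)), detKK,
    detM _ _ _ _ _ _ _ _ N1_ne, Fintype.prod_sum_type, Fintype.prod_bool]
  simp only [PP, deg_lin, deg_add, deg_sub, pow_one]
  congr 1
  rw [Fin.prod_univ_eight]
  have e1 : (C (sg true) : R) = 1 := by simp [sg]
  have e2 : (C (sg false) : R) = -1 := by simp [sg]
  have l0 : lin 0 = (X 0 + X 8) + (X 1 + X 9) + (X 2 + X 10) + (X 3 + X 11) + (X 4 + X 12) + (X 5 + X 13) + (X 6 + X 14) + (X 7 + X 15) := by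
    rw [lin_eq]
    simp only [show ch 0 0 = true from rfl, show ch 0 1 = true from rfl, show ch 0 2 = true from rfl, show ch 0 3 = true from rfl, show ch 0 4 = true from rfl, show ch 0 5 = true from rfl, show ch 0 6 = true from rfl, show ch 0 7 = true from rfl, e1, e2]
    ring
  have l1 : lin 1 = (X 0 + X 8) - (X 1 + X 9) + (X 2 + X 10) - (X 3 + X 11) + (X 4 + X 12) - (X 5 + X 13) + (X 6 + X 14) - (X 7 + X 15) := by
    rw [lin_eq]
    simp only [show ch 1 0 = true from rfl, show ch 1 1 = false from rfl, show ch 1 2 = true from rfl, show ch 1 3 = false from rfl, show ch 1 4 = true from rfl, show ch 1 5 = false from rfl, show ch 1 6 = true from rfl, show ch 1 7 = false from rfl, e1, e2]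
    ring
  have l2 : lin 2 = (X 0 + X 8) + (X 1 + X 9) - (X 2 + X 10) - (X 3 + X 11) + (X 4 + X 12) + (X 5 + X 13) - (X 6 + X 14) - (X 7 + X 15) := by
    rw [lin_eq]
    simp only [show ch 2 0 = true from rfl, show ch 2 1 = true from rfl, show ch 2 2 = false from rfl, show ch 2 3 = false from rfl, show ch 2 4 = true from rfl, show ch 2 5 = true from rfl, show ch 2 6 = false from rfl, show ch 2 7 = false from rfl, e1, e2]
    ring
  have l3 : lin 3 = (X 0 + X 8) - (X 1 + X 9) - (X 2 + X 10) + (X 3 + X 11) + (X 4 + X 12) - (X 5 + X 13) - (X 6 + X 14) + (X 7 + X 15) := by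
    rw [lin_eq]
    simp only [show ch 3 0 = true from rfl, show ch 3 1 = false from rfl, show ch 3 2 = false from rfl, show ch 3 3 = true from rfl, show ch 3 4 = true from rfl, show ch 3 5 = false from rfl, show ch 3 6 = false from rfl, show ch 3 7 = true from rfl, e1, e2]
    ring
  have l4 : lin 4 = (X 0 + X 8) + (X 1 + X 9) + (X 2 + X 10) + (X 3 + X 11) - (X 4 + X 12) - (X 5 + X 13) - (X 6 + X 14) - (X 7 + X 15) := by
    rw [lin_eq]
    simp only [show ch 4 0 = true from rfl, show ch 4 1 = true from rfl, show ch 4 2 = true from rfl, show ch 4 3 = true from rfl, show ch 4 4 = false from rfl, show ch 4 5 = false from rfl, show ch 4 6 = false from rfl, show ch 4 7 = false from rfl, e1, e2]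
    ring
  have l5 : lin 5 = (X 0 + X 8) - (X 1 + X 9) + (X 2 + X 10) - (X 3 + X 11) - (X 4 + X 12) + (X 5 + X 13) - (X 6 + X 14) + (X 7 + X 15) := by
    rw [lin_eq]
    simp only [show ch 5 0 = true from rfl, show ch 5 1 = false from rfl, show ch 5 2 = true from rfl, show ch 5 3 = false from rfl, show ch 5 4 = false from rfl, show ch 5 5 = true from rfl, show ch 5 6 = false from rfl, show ch 5 7 = true from rfl, e1, e2]
    ring
  have l6 : lin 6 = (X 0 + X 8) + (X 1 + X 9) - (X 2 + X 10) - (X 3 + X 11) - (X 4 + X 12) - (X 5 + X 13) + (X 6 + X 14) + (X 7 + X 15) := by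
    rw [lin_eq]
    simp only [show ch 6 0 = true from rfl, show ch 6 1 = true from rfl, show ch 6 2 = false from rfl, show ch 6 3 = false from rfl, show ch 6 4 = false from rfl, show ch 6 5 = false from rfl, show ch 6 6 = true from rfl, show ch 6 7 = true from rfl, e1, e2]
    ring
  have l7 : lin 7 = (X 0 + X 8) - (X 1 + X 9) - (X 2 + X 10) + (X 3 + X 11) - (X 4 + X 12) + (X 5 + X 13) + (X 6 + X 14) - (X 7 + X 15) := by
    rw [lin_eq]
    simp only [show ch 7 0 = true from rfl, show ch 7 1 = false from rfl, show ch 7 2 = false from rfl, show ch 7 3 = true from rfl, show ch 7 4 = false from rfl, show ch 7 5 = true from rfl, show ch 7 6 = true from rfl, show ch 7 7 = false from rfl, e1, e2]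
    ring
  rw [l0, l1, l2, l3, l4, l5, l6, l7]
  simp only [mul_assoc]

end Pool.Agent.H.MP_b97972_al
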